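import Pool.Agent.H24.Sum4

set_option autoImplicit false

theorem Pool.Agent.Results.MP_ae8880_nt.No.result :
    ∃ n : ℕ, 8 < n ∧ ∀ p : ℕ, p.Prime → ∀ a b c d : ℕ, 0 < a → 0 < b → 0 < c → 0 < d →
      a + b + c + d = n → ((a : ℤ) * b * c * d ≠ (p : ℤ) ^ 3 - p) :=
  Pool.Agent.H24.Sum4.main
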